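import Pool.Agent.helper33.SP.SpecC1S

/-!
# Project sp, module PAR: Parseval
-/

namespace TP

open DP MeasureTheory

theorem PAR_prob : IsProbabilityMeasure P1 := by
  unfold P1
  haveI : IsProbabilityMeasure ((PMF.uniformOfFintype Bool).toMeasure) :=
    PMF.toMeasure.isProbabilityMeasure _
  infer_instance

theorem PAR_av_empty (g : (V → Bool) → ℝ) (b : V → Bool) : av ∅ g b = g b := by
  haveI := PAR_prob
  have h : ∀ b' : V → Bool, mx ∅ b b' = b := by
    intro b'
    funext v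
    simp [mx]
  simp [av, h]

theorem PAR_pmf_sq (F : Set (V → Bool)) (b : V → Bool) : pmf F b ^ 2 = 1 := by
  unfold pmf
  by_cases h : b ∈ F
  · simp [Set.indicator_of_mem h]
    norm_num
  · simp [Set.indicator_of_notMem h]

/-- Parseval. -/
theorem PAR (h3 : UJ3_stmt) (h4 : UJ4_stmt) : PAR_stmt := by
  haveI := PAR_prob
  intro i
  have h := h3 (Fc i) (VV i) ∅ (fun _ => ∅) 0 (h4 i).1
  have e : (fun X : Set V => (∀ v ∈ X, v ∉ (∅ : Set V)) ∧
      ∀ l < 0, ∃ v ∈ X, v ∈ (fun _ : ℕ => (∅ : Set V)) l) = fun _ => True := by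
    funext X
    simp
  rw [e] at h
  unfold PS
  rw [h]
  have e2 : (fun b => (av ∅ (dls (fun _ => ∅) 0 (pmf (Fc i))) b) ^ 2) = fun _ => (1 : ℝ) := by
    funext b
    rw [PAR_av_empty]
    exact PAR_pmf_sq _ b
  rw [e2]
  simp

end TP
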