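import Pool.Agent.helper96.SP.SpecTB
import Pool.Agent.helper98.SP.N3
import Pool.Agent.helper61.DP.SpecA
import Pool.Agent.helper96.DP.SpecF

/-!
# Project sp, part TA: deterministic separation and counting for six thick arms

First half of the separation of thick arms, output `CUT6_stmt` (in `helper96/SP/SpecTB.lean`).

Plan. `K` is a white crossing cluster of the annulus, `nbd K` its (black) neighbours. `Th K` flips
all bricks of the annulus which do not meet `K` or its neighbours. A thick pair `TC c K K'` consists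
of two different white crossing clusters whose layers of neighbours have no common brick. Then
`a = Th K c` has `K` white, `nbd K` black, `K'` black, `nbd K'` white. The six arms
`0, ..., 5` = `nbd K`, black off `K`, `K'`, `nbd K'`, black off `K'`, `K` (colours `B B W B B W`) start at
six interface edges (edges 0, 2, 3, 5 of the colouring `c`, edge 1 of `Th K c`, edge 4 of `Th K' c`), so
`DE_stmt` and `DA_stmt` separate them off bad events. `Th K` preserves the measure on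
`{K is a white crossing cluster}`, and exchanges three crossing clusters with a thick pair.

Modules `TA1` ... `TA19`, files `Pool/Agent/<seat>/SP/TA1.lean`, import this file, namespace `TP.TA`,
`theorem TA1 (h : YY_stmt) ... : TA1_stmt`. Any statement of the DP and TP specifications may be
a hypothesis. Auxiliary lemmas are prefixed `TA1_`. No double quotes in the files.
-/

namespace TP.TA

open DP MeasureTheory

/-! ## Definitions -/

/-- The colouring is constant on bricks. -/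
def BC (c : V → Bool) : Prop := ∀ v, c v = c (br v)

/-- `K` is a white crossing cluster of the annulus. -/
def WC (c : V → Bool) (x : V) (m n : ℕ) (K : Set V) : Prop :=
  ∃ u ∈ bd x m, (∃ u' ∈ bd x n, Conn c false (ann x m n) u u') ∧
    K = {v | Conn c false (ann x m n) u v}

/-- Sites of the bricks of the annulus which do not meet `K` or its neighbours. -/
def FS (x : V) (m n : ℕ) (K : Set V) : Set V :=
  {v | (∃ w ∈ ann x m n, br w = br v) ∧ ∀ w, (w ∈ K ∨ w ∈ nbd (ann x m n) K) → br w ≠ br v}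

open Classical in
/-- Flip everything off `K` and its neighbours. -/
noncomputable def Th (x : V) (m n : ℕ) (K : Set V) (c : V → Bool) : V → Bool :=
  fun v => if v ∈ FS x m n K then !(c v) else c v

/-- Thick pair: two white crossing clusters whose layers of neighbours have no common brick. -/
def TC (c : V → Bool) (x : V) (m n : ℕ) (K K' : Set V) : Prop :=
  WC c x m n K ∧ WC c x m n K' ∧ K ≠ K' ∧ BDis (nbd (ann x m n) K) (nbd (ann x m n) K')

/-- There is a thick pair. -/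
def TE (c : V → Bool) (x : V) (m n : ℕ) : Prop := ∃ K K' : Set V, TC c x m n K K'

/-- There are two further white crossing clusters. -/
def Thr (c : V → Bool) (x : V) (m n : ℕ) (K : Set V) : Prop :=
  ∃ K₂ K₃ : Set V, WC c x m n K₂ ∧ WC c x m n K₃ ∧ K ≠ K₂ ∧ K ≠ K₃ ∧ K₂ ≠ K₃

open Classical in
/-- The number of white crossing clusters. -/
noncomputable def nW (c : V → Bool) (x : V) (m n : ℕ) : ℕ :=
  ((N3_A x m n).powerset.filter fun K => WC c x m n (K : Set V)).card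

/-- The radius of the circle on the side `s` (`true`: outer). -/
def ci (s : Bool) (m n : ℕ) : ℕ := if s = true then n else m

/-- `u` on the circle of the side `s` is connected by its colour to the other circle of the annulus
`ann x m n` (`outX` for `s = true`, `inX` for `s = false`). -/
def cx (s : Bool) (c : V → Bool) (x : V) (m n : ℕ) (u : V) : Prop :=
  crX s c x (ci s m n) (ci (!s) m n) u

/-- `L` is a lifted position of `u` on the circle. -/
def Lf (x : V) (N : ℕ) (u : V) (L : ℤ) : Prop := u ∈ bd x N ∧ ∃ k : ℤ, L = pos x N u + 8 * N * k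

/-! ## Clusters and flips (deterministic) -/

/-- TA1. Basic facts on white crossing clusters. (`Con.cluster`, `Con.mono`, `Con.induct` of
`DP/Basic`; helper98's `N3_cl` lemmas are similar.) -/
def TA1_stmt : Prop :=
  (∀ (c : V → Bool) (x : V) (m n : ℕ) (K : Set V), WC c x m n K →
    K ⊆ ann x m n ∧ (∀ v ∈ K, c v = false) ∧ (∀ u ∈ K, ∀ v ∈ K, Con K u v) ∧
    (∃ u ∈ K, u ∈ bd x m) ∧ (∃ u ∈ K, u ∈ bd x n) ∧ (∀ v ∈ nbd (ann x m n) K, c v = true) ∧
    (BC c → ∀ v ∈ ann x m n, ∀ w ∈ K, c v = false → br v = br w → v ∈ K)) ∧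
  (∀ (c : V → Bool) (x : V) (m n : ℕ) (K K' : Set V), WC c x m n K → WC c x m n K' →
    (K ∩ K').Nonempty → K = K') ∧
  ∀ (c : V → Bool) (x : V) (m n : ℕ) (K : Set V), K ⊆ ann x m n → (∀ v ∈ K, c v = false) →
    (∀ u ∈ K, ∀ v ∈ K, Con K u v) → (∃ u ∈ K, u ∈ bd x m) → (∃ u ∈ K, u ∈ bd x n) →
    (∀ v ∈ nbd (ann x m n) K, c v = true) → WC c x m n K

/-- TA2. Facts on the flip. First part: `FS` is a union of bricks; third clause: a site of the
annulus in the brick of a site of `K` or of `nbd K` is in `K` if it is white. Second part: thick pairs.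
`K'` avoids the bricks of `K` (same colour: it would be in `K`, see `TA1`), those of `nbd K` (other
colour); `nbd K'` avoids the bricks of `K` (other colour) and of `nbd K` (by `TC`). -/
def TA2_stmt : Prop :=
  (∀ (c : V → Bool) (x : V) (m n : ℕ) (K : Set V), BC c → BC (Th x m n K c) ∧
    Th x m n K (Th x m n K c) = c ∧
    (WC c x m n K → WC (Th x m n K c) x m n K ∧
      (∀ v, (v ∈ K ∨ v ∈ nbd (ann x m n) K) → Th x m n K c v = c v) ∧
      ∀ v ∈ ann x m n, Th x m n K c v = false → v ∉ K → v ∈ FS x m n K ∧ c v = true)) ∧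
  ∀ (c : V → Bool) (x : V) (m n : ℕ) (K K' : Set V), BC c → TC c x m n K K' →
    TC c x m n K' K ∧ K' ⊆ FS x m n K ∧ nbd (ann x m n) K' ⊆ FS x m n K ∧
      (∀ v ∈ K', Th x m n K c v = true) ∧ (∀ v ∈ nbd (ann x m n) K', Th x m n K c v = false) ∧
      Disjoint K K' ∧ Disjoint K (nbd (ann x m n) K') ∧
      Disjoint (nbd (ann x m n) K) (nbd (ann x m n) K')

/-- TA3. Three crossing clusters give a thick pair. Paint `K` black: `c v = true` on `K`. The other
two white crossing clusters are still different crossing clusters (`K` is not adjacent to them), so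
by `DP.TC_stmt` there are two different black crossing clusters; `K` and its neighbours (`a`-black) are
in one of them (connected, since `K` is), let `K'` be the other one. `K'` is an `a`-black crossing
cluster which does not meet `K` or `nbd K`. Then `K'` and `nbd K'` (`a`-white) are in `FS K`: `K'` against
`K`: colours; `K'` against `nbd K`: sites of one brick are adjacent (`br_adj`), so the site of `nbd K`
would be in `K'`; `nbd K'` against `K`: the site would be in `K`, and then `K` is adjacent to `K'`, so `K'`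
meets `nbd K`; `nbd K'` against `nbd K`: colours. So `K'` is white, `nbd K'` is black in `Th K a`
(`TA1`, third part). -/
def TA3_stmt : Prop :=
  ∀ (a : V → Bool) (x : V) (m n : ℕ) (K : Set V), Even (x.1 + x.2) → 1 ≤ m → m < n → BC a →
    WC a x m n K → Thr a x m n K → ∃ K' : Set V, TC (Th x m n K a) x m n K K'

/-- TA4. Converse of TA3. Let `a = Th K c`; paint `K` black. `K ∪ nbd K` is connected, black and
crossing, `K'` is a black crossing cluster (its neighbours are `a`-white and not in `K`) which is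
different from the one of `K`. By `DP.TC_stmt` there are two different white crossing clusters; they
are not adjacent to `K` (the neighbours of `K` are black), so they are white crossing clusters of `a`
as well, different from `K`. -/
def TA4_stmt : Prop :=
  ∀ (c : V → Bool) (x : V) (m n : ℕ) (K K' : Set V), Even (x.1 + x.2) → 1 ≤ m → m < n → BC c →
    TC c x m n K K' → Thr (Th x m n K c) x m n K

/-! ## Orientation -/

/-- TA5. Adjacent sites of neighbouring circles are in the same order. (Arithmetic with `pos`;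
diagonals are edges only between sites of even sum, so edges between the circles do not cross.
Or via `DP.OU_stmt`.) -/
def TA5_stmt : Prop :=
  ∀ (x : V) (r : ℕ) (v₁ v₂ v₃ u₁ u₂ u₃ : V), Even (x.1 + x.2) → 1 ≤ r →
    v₁ ∈ bd x r → v₂ ∈ bd x r → v₃ ∈ bd x r → u₁ ∈ bd x (r + 1) → u₂ ∈ bd x (r + 1) →
    u₃ ∈ bd x (r + 1) → Adj v₁ u₁ → Adj v₂ u₂ → Adj v₃ u₃ → v₁ ≠ v₂ → v₂ ≠ v₃ → v₁ ≠ v₃ →
    u₁ ≠ u₂ → u₂ ≠ u₃ → u₁ ≠ u₃ → (onArc x r v₁ v₃ v₂ ↔ onArc x (r + 1) u₁ u₃ u₂)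

/-- TA6. Independence of the representative. `A₁ A₂ A₃` are disjoint; `u₃, v₃ ∈ A₃` on the circle of
radius `r`, both connected to the inner circle inside radius `r`. Then they are in the same arc
between `u₁` and `u₂`. Proof. Otherwise the points are different and `alt x r u₁ u₃ u₂ v₃`. Case `r = m`:
colouring `true` exactly on `A₁ ∪ A₂`, `IF_stmt` (with `k = false`, points `u₃ u₂ v₃ u₁`, rotated by
`AC_stmt`): `u₃, v₃` are not connected by `false`, but `Con A₃ u₃ v₃`. Case `m < r`: let `p₁ p₂ p₃ q₃` be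
the ends on the inner circle. If `u₃, v₃` are connected in `A₃ ∩ ann x m r`: `OF_stmt` gives a
contradiction (colouring as before). Otherwise `p₃ ≠ q₃`; if not `alt x m p₁ p₃ p₂ q₃`, then
`alt x m p₁ p₂ p₃ q₃` or `alt x m p₁ p₂ q₃ p₃`, and `OT_stmt` (in `ann x m r`, colouring `true` on `A₁` and
the component of `u₃` resp. `v₃` in `A₃ ∩ ann x m r`) gives `alt x r u₁ u₂ u₃ v₃` resp.
`alt x r u₁ u₂ v₃ u₃`, impossible. So `alt x m p₁ p₃ p₂ q₃`, and the case `r = m` applies. -/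
def TA6_stmt : Prop :=
  ∀ (x : V) (m r n : ℕ) (A₁ A₂ A₃ : Set V) (u₁ u₂ u₃ v₃ : V), Even (x.1 + x.2) → 1 ≤ m → m < n →
    m ≤ r → r ≤ n → A₁ ⊆ ann x m n → A₂ ⊆ ann x m n → A₃ ⊆ ann x m n → Disjoint A₁ A₂ →
    Disjoint A₂ A₃ → Disjoint A₁ A₃ → u₁ ∈ bd x r → u₂ ∈ bd x r → u₃ ∈ bd x r → v₃ ∈ bd x r →
    (∃ p ∈ bd x m, Con (A₁ ∩ ann x m r) p u₁) → (∃ p ∈ bd x m, Con (A₂ ∩ ann x m r) p u₂) →
    (∃ p ∈ bd x m, Con (A₃ ∩ ann x m r) p u₃) → (∃ p ∈ bd x m, Con (A₃ ∩ ann x m r) p v₃) →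
    (∃ w ∈ bd x n, Con A₁ u₁ w) → (∃ w ∈ bd x n, Con A₂ u₂ w) → (∃ w ∈ bd x n, Con A₃ u₃ w) →
    Con A₃ u₃ v₃ → (onArc x r u₁ u₂ u₃ ↔ onArc x r u₁ u₂ v₃)

/-- TA7. Disjoint crossings keep their cyclic order. Induction on the radius `r` from `m` to `n`: for
`u i ∈ bd x r` connected to the inner circle in `A i ∩ ann x m r` (and to the outer circle in `A i`) the
order of `u₁ u₂ u₃` is the order of `p₁ p₂ p₃`. `r = m`: `TA6`, changing the points one by one (the
order of three different points is invariant under rotation: `onArc x n a c b ↔ onArc x n b a c`).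
Step: choose the first point `w i` of `bd x (r + 1)` on a path from `p i` to `u i` in
`A i ∩ ann x m (r + 1)` (`Con.enter`, `Con.exit`), its predecessor is in `bd x r` and fits the
induction hypothesis; `TA5`; then `TA6` from `w i` to `u i`. -/
def TA7_stmt : Prop :=
  ∀ (x : V) (m n : ℕ) (A₁ A₂ A₃ : Set V) (p₁ p₂ p₃ u₁ u₂ u₃ : V), Even (x.1 + x.2) → 1 ≤ m →
    m < n → A₁ ⊆ ann x m n → A₂ ⊆ ann x m n → A₃ ⊆ ann x m n → Disjoint A₁ A₂ →
    Disjoint A₂ A₃ → Disjoint A₁ A₃ → p₁ ∈ bd x m → p₂ ∈ bd x m → p₃ ∈ bd x m → u₁ ∈ bd x n →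
    u₂ ∈ bd x n → u₃ ∈ bd x n → Con A₁ p₁ u₁ → Con A₂ p₂ u₂ → Con A₃ p₃ u₃ →
    (onArc x m p₁ p₃ p₂ ↔ onArc x n u₁ u₃ u₂)

/-- TA8. The neighbours of a crossing set on one side are connected. Proof: otherwise let `L`, `L'` be
the components of `y`, `y'` in `nbd K`. Apply `TA7` to `K, L, L'`, with the points `z', p, y'` on the
inner and `z, y, u` on the outer circle. First case: `y` is on the arc from `z` to `u`, but the arc from
`z'` to its neighbour `y'` does not contain `p`. Second case: `K, L', L`. -/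
def TA8_stmt : Prop :=
  ∀ (x : V) (m n : ℕ) (K : Set V) (z y z' y' : V), Even (x.1 + x.2) → 1 ≤ m → m < n →
    K ⊆ ann x m n → (∀ u ∈ K, ∀ v ∈ K, Con K u v) →
    ((nxt x n z y ∧ nxt x m z' y') ∨ (nxt x n y z ∧ nxt x m y' z')) → z ∈ K → z' ∈ K →
    y ∈ nbd (ann x m n) K → y' ∈ nbd (ann x m n) K →
    (∃ p ∈ bd x m, Con (nbd (ann x m n) K) y p) → (∃ u ∈ bd x n, Con (nbd (ann x m n) K) y' u) →
      Con (nbd (ann x m n) K) y y'

/-! ## Spots -/

/-- TA9. Two sets on a circle which do not alternate: sectors, in lifted positions. Proof: choose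
`b ∈ S'` with lift `B`; all points of `S` have lifts in `(B, B + 8 N)`, let `P₅` and `P₀` be the smallest
and the largest one; no point of `S'` has a lift in `[P₅, P₀]` (it would alternate with `b`); so all
points of `S'` have lifts in `(P₀, P₅ + 8 N)`; smallest `P₂`, largest `P₃`. (`PO_stmt`.) -/
def TA9_stmt : Prop :=
  ∀ (x : V) (N : ℕ) (S S' : Set V), 1 ≤ N → S ⊆ bd x N → S' ⊆ bd x N → S.Nonempty →
    S'.Nonempty → Disjoint S S' → (∀ a ∈ S, ∀ b ∈ S', ∀ c ∈ S, ∀ d ∈ S', ¬ alt x N a b c d) →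
      ∃ (z₀ z₅ z₂ z₃ : V) (P₀ P₅ P₂ P₃ : ℤ), z₀ ∈ S ∧ z₅ ∈ S ∧ z₂ ∈ S' ∧ z₃ ∈ S' ∧
        Lf x N z₀ P₀ ∧ Lf x N z₅ P₅ ∧ Lf x N z₂ P₂ ∧ Lf x N z₃ P₃ ∧ P₅ ≤ P₀ ∧ P₀ < P₂ ∧ P₂ ≤ P₃ ∧
        P₃ < P₅ + 8 * N ∧ (∀ v ∈ S, ∃ L, Lf x N v L ∧ P₅ ≤ L ∧ L ≤ P₀) ∧
        ∀ v ∈ S', ∃ L, Lf x N v L ∧ P₂ ≤ L ∧ L ≤ P₃

/-- Six interface edges `{y i, z i}` on the circle of the side `s`, with lifted positions `L i`, `M i`;
`y i` is the spot of arm `i`. In counterclockwise order: `z 0 ∈ K`, `y 0 ∈ nbd K` (next site); between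
`y 0` and `z 2` the edge `{y 1, z 1}` of the colouring `Th K c`; `z 2 ∈ nbd K'`, `y 2 ∈ K'` (next site);
`z 3 ∈ K'`, `y 3 ∈ nbd K'` (next site); between `y 3` and `z 5` the edge `{y 4, z 4}` of the colouring
`Th K' c`; `z 5 ∈ nbd K`, `y 5 ∈ K` (next site). -/
structure SD (s : Bool) (c : V → Bool) (x : V) (m n : ℕ) (K K' : Set V) (y z : ℕ → V)
    (L M : ℕ → ℤ) : Prop where
  py : ∀ i < 6, Lf x (ci s m n) (y i) (L i)
  pz : ∀ i < 6, Lf x (ci s m n) (z i) (M i)
  n0 : L 0 = M 0 + 1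
  n1 : M 1 = L 1 - 1 ∨ M 1 = L 1 + 1
  n2 : L 2 = M 2 + 1
  n3 : L 3 = M 3 + 1
  n4 : M 4 = L 4 - 1 ∨ M 4 = L 4 + 1
  n5 : L 5 = M 5 + 1
  o1 : L 0 < L 1 ∧ L 1 ≤ M 2 ∧ L 0 ≤ M 1 ∧ M 1 ≤ M 2
  o3 : L 2 ≤ M 3
  o4 : L 3 < L 4 ∧ L 4 ≤ M 5 ∧ L 3 ≤ M 4 ∧ M 4 ≤ M 5
  o5 : L 5 ≤ M 0 + 8 * (ci s m n : ℤ)
  k0 : z 0 ∈ K ∧ y 0 ∈ nbd (ann x m n) K ∧
    ∃ p ∈ bd x (ci (!s) m n), Con (nbd (ann x m n) K) (y 0) p
  k1 : Conn (Th x m n K c) false (ann x m n) (z 2) (y 1) ∧ Th x m n K c (z 1) = true ∧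
    cx s (Th x m n K c) x m n (z 1)
  k2 : y 2 ∈ K' ∧ z 2 ∈ nbd (ann x m n) K' ∧
    ∃ p ∈ bd x (ci (!s) m n), Con (nbd (ann x m n) K') (z 2) p
  k3 : z 3 ∈ K' ∧ y 3 ∈ nbd (ann x m n) K' ∧
    ∃ p ∈ bd x (ci (!s) m n), Con (nbd (ann x m n) K') (y 3) p
  k4 : Conn (Th x m n K' c) false (ann x m n) (z 5) (y 4) ∧ Th x m n K' c (z 4) = true ∧
    cx s (Th x m n K' c) x m n (z 4)
  k5 : y 5 ∈ K ∧ z 5 ∈ nbd (ann x m n) K ∧
    ∃ p ∈ bd x (ci (!s) m n), Con (nbd (ann x m n) K) (z 5) p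

/-- TA10. Existence of the six edges. `K ∩ bd`, `K' ∩ bd` do not alternate (`SI_stmt` for the outer,
`SO_stmt` for the inner circle). Take the sectors of `TA9`; `z 0`, `y 5` are the last and the first
point of `K`, `y 2`, `z 3` those of `K'`; `y 0`, `z 5`, `z 2`, `y 3` are their neighbours (position `± 1`).
`GO_stmt` (outer) resp. `GI_stmt` (inner) with `C = K`, `u = z 0`, `v = y 2`: an edge `{a, b}` on the arc
from `z 0` to `y 2` with `a ∈ K`, so `a = z 0`, and `b ∉ K`, so `b = y 0`, and `b` is connected in `nbd K` to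
the other circle (`K'` is not adjacent to `K`, so `P₂ ≥ P₀ + 2` etc.; `b ≠ v` excludes the other
neighbour). Similarly the second part of `GO` (`GI`) with `C = K'`, `u = y 2`, `v = z 0` gives `z 2`, and
the two other sectors. Edge 1: `QO_stmt` resp. `QI_stmt` for the colouring `Th K c`, with `u = z 2`
(white), `v = y 0` (black), second part: `a = y 1`, `b = z 1`. Edge 4: `QO` (`QI`) for `Th K' c`, `u = z 5`,
`v = y 3`. -/
def TA10_stmt : Prop :=
  ∀ (s : Bool) (c : V → Bool) (x : V) (m n : ℕ) (K K' : Set V), Even (x.1 + x.2) → 1 ≤ m → m < n →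
    BC c → TC c x m n K K' → ∃ (y z : ℕ → V) (L M : ℕ → ℤ), SD s c x m n K K' y z L M

/-- TA11. Distances. `DE_stmt` (with `n' = ci (!s) m n`, `r₂ := 2 * r₂ + 14`) for the colouring `Th K c`:
the edges 0, 1, 2, 3, 5 are crossing interface edges of it (`K`: false, `nbd K`: true, `K'`: true,
`nbd K'`: false, all connected to the other circle; `y 1` is connected to `z 2`), and they are
different (their lifted intervals are consecutive and do not overlap), so
`2 * r₂ + 14 ≤ sd (y i) (y j) + 4`. For `Th K' c`: the edges 0, 2, 3, 4, 5. Remaining pair `1, 4`: by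
`CG2_stmt` the distance `sd (y 1) (y 4)` is at least half of the distance of the positions on the
circle, which is at least `sd (y 2) (y 3)` in one direction and `sd (y 5) (y 0)` in the other
direction. -/
def TA11_stmt : Prop :=
  ∀ (s : Bool) (c : V → Bool) (x : V) (m n : ℕ) (K K' : Set V) (y z : ℕ → V) (L M : ℕ → ℤ)
    (r₂ r₃ : ℕ), Even (x.1 + x.2) → 1 ≤ m → m < n → BC c → TC c x m n K K' →
    SD s c x m n K K' y z L M → m + r₃ ≤ n → 8 * (2 * r₂ + 14) ≤ r₃ → r₃ ≤ ci s m n →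
    ¬ Bad s (Th x m n K c) x (ci s m n) (2 * r₂ + 14) r₃ →
    ¬ Bad s (Th x m n K' c) x (ci s m n) (2 * r₂ + 14) r₃ →
      ∀ i < 6, ∀ j < 6, i ≠ j → 2 * r₂ + 14 ≤ 2 * sd (y i) (y j) + 12

/-- The set in which arm `i` runs. -/
def AS (c : V → Bool) (x : V) (m n : ℕ) (K K' : Set V) (i : ℕ) : Set V :=
  if i = 0 then nbd (ann x m n) K
  else if i = 1 then {v | v ∈ ann x m n ∧ Th x m n K c v = false ∧ v ∉ K}
  else if i = 2 then K'
  else if i = 3 then nbd (ann x m n) K'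
  else if i = 4 then {v | v ∈ ann x m n ∧ Th x m n K' c v = false ∧ v ∉ K'}
  else K

/-- No bad event at the circle of the side `s`. -/
def NB (s : Bool) (c : V → Bool) (x : V) (m n r₁ r₂ r₃ : ℕ) : Prop :=
  ¬ Bad s c x (ci s m n) r₁ r₂ ∧ ¬ Bad s c x (ci s m n) (2 * r₂ + 14) r₃

/-- TA12. Arms avoid the spots in conflict. `r₂ ≤ sd (y i) (y j) - 1` by `TA11`. Spots
`j = 0, 2, 3, 5`: `DA_stmt` for the colouring `c` (arm `i` is `c`-monochromatic: `AS 1`, `AS 4` are
`c`-black by `TA2`, `nbd K`, `nbd K'` black, `K`, `K'` white); spot 1: `DA_stmt` for `Th K c` (`i = 0, 2, 5`: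
black, black, white); spot 4: `DA_stmt` for `Th K' c` (`i = 2, 3, 5`: white, black, black). In
`DA_stmt` `a` is the end of the edge `{y j, z j}` of the colour of the arm and `b` is the other end. -/
def TA12_stmt : Prop :=
  ∀ (s : Bool) (c : V → Bool) (x : V) (m n : ℕ) (K K' : Set V) (y z : ℕ → V) (L M : ℕ → ℤ)
    (r₁ r₂ r₃ : ℕ), Even (x.1 + x.2) → 1 ≤ m → m < n → BC c → TC c x m n K K' →
    SD s c x m n K K' y z L M → m + r₃ ≤ n → 8 * (2 * r₂ + 14) ≤ r₃ → r₃ ≤ ci s m n → 1 ≤ r₁ →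
    r₁ < r₂ → NB s c x m n r₁ r₂ r₃ → NB s (Th x m n K c) x m n r₁ r₂ r₃ →
    NB s (Th x m n K' c) x m n r₁ r₂ r₃ →
      ∀ i < 6, ∀ (l : List V) (p : V), p ∈ bd x (ci (!s) m n) →
        IsPath (AS c x m n K K' i) l (y i) p → BNd l → ∀ j < 6, conf i j → ∀ w ∈ l,
          r₁ ≤ sd (y j) w + 1

/-- TA13. The deterministic conclusion. `TA10` on both sides gives spots `y`, `y'`;
`Con (AS i) (y i) (y' i)`: `i = 2, 5` since `K'`, `K` are connected, `i = 0, 3` by `TA8`, `i = 1`: `y 1` to `z 2`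
(`Th K c`-white, off `K` since `K` is a cluster of `Th K c` and `z 2 ∉ K`), `z 2` to `z' 2` by `TA8` (for
`K'`, second case), `z' 2` to `y' 1`; `i = 4` similarly. `BN_stmt` gives paths; `TA12` on both sides
(reverse the paths for the inner side). Brick-disjointness of arms `0, 1`: `AS 1 ⊆ FS K` (`TA2`); of
`3, 4`: `AS 4 ⊆ FS K'`. Distances: `TA11`. `Cyc6` with `L 0 < L 1 < L 2 < L 3 < L 4 < L 5 < L 0 + 8 N`. -/
def TA13_stmt : Prop :=
  ∀ (c : V → Bool) (x : V) (m n : ℕ) (K K' : Set V) (r₁ r₂ r₃ t₁ t₂ t₃ : ℕ), Even (x.1 + x.2) →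
    1 ≤ m → m < n → BC c → TC c x m n K K' → m + r₃ ≤ n → 8 * (2 * r₂ + 14) ≤ r₃ → r₃ ≤ n →
    1 ≤ r₁ → r₁ < r₂ → m + t₃ ≤ n → 8 * (2 * t₂ + 14) ≤ t₃ → t₃ ≤ m → 1 ≤ t₁ → t₁ < t₂ →
    NB true c x m n r₁ r₂ r₃ → NB true (Th x m n K c) x m n r₁ r₂ r₃ →
    NB true (Th x m n K' c) x m n r₁ r₂ r₃ → NB false c x m n t₁ t₂ t₃ →
    NB false (Th x m n K c) x m n t₁ t₂ t₃ → NB false (Th x m n K' c) x m n t₁ t₂ t₃ →
      ∃ y y' : ℕ → V, (∀ l < 6, y l ∈ bd x n ∧ y' l ∈ bd x m) ∧ Cyc6 x n y ∧ Cyc6 x m y' ∧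
        (∀ i < 6, ∀ j < 6, i ≠ j → r₂ + 1 ≤ sd (y i) (y j) ∧ t₂ + 1 ≤ sd (y' i) (y' j)) ∧
        ∀ E E' : Sp6, E.n = n → E'.n = m → (∀ l < 6, sd (E.y l) (y l) ≤ E.a) →
          (∀ l < 6, sd (E'.y l) (y' l) ≤ E'.a) → E.A + E.a + 1 < r₁ → E'.A + E'.a + 1 < t₁ →
            SixM c x E E'

/-! ## Counting -/

/-- TA14. The flip preserves the measure on the event that `K` is a white crossing cluster. Proof:
`Th K (col b) = col b'` where `b'` flips the coins at the left sites in `FS K` (`FS` is a union of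
bricks); for events which depend on finitely many coins this is a bijection of finite sets
(`UJ8_avg` of helper79, or invariance of the product measure); `WC c K ↔ WC (Th K c) K`. -/
def TA14_stmt : Prop :=
  ∀ (x : V) (m n : ℕ) (K : Finset V) (G : (V → Bool) → Prop), Loc (Ev G) Set.univ →
    Pr (Ev fun c => WC c x m n K ∧ G (Th x m n K c)) = Pr (Ev fun c => WC c x m n K ∧ G c)

/-- TA15. Number of clusters. For the third and fourth clause: every crossing cluster of the large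
annulus contains a crossing cluster of the small one (`Con.enter`, `Con.exit`), and the neighbours of
the small cluster in the small annulus are neighbours of the large cluster in the large one. -/
def TA15_stmt : Prop :=
  (∀ (c : V → Bool) (x : V) (m n : ℕ), 3 ≤ nW c x m n ↔ Three (fl c) x m n) ∧
  (∀ (c : V → Bool) (x : V) (m n : ℕ) (K : Set V), WC c x m n K →
    (3 ≤ nW c x m n ↔ Thr c x m n K)) ∧
  (∀ (c : V → Bool) (x : V) (m m₁ n₁ n : ℕ), m ≤ m₁ → m₁ ≤ n₁ → n₁ ≤ n →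
    nW c x m n ≤ nW c x m₁ n₁) ∧
  ∀ (c : V → Bool) (x : V) (m m₁ n₁ n : ℕ), m ≤ m₁ → m₁ ≤ n₁ → n₁ ≤ n → TE c x m n →
    TE c x m₁ n₁

/-- TA16. More than three crossing clusters are rare. Copy of `N3_ineq` of helper98
(`Pool/Agent/helper98/SP/N3.lean`) with ordered triples of different white crossing clusters: given
three of them a further one is a white crossing of the fresh region, so
`E[N (N-1) (N-2); N ≥ 4] ≤ d E[N (N-1) (N-2)]`, hence `≤ 2 d * 6 Pr (N = 3)`, and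
`N ≤ N (N-1) (N-2) / 6` for `N ≥ 4`. -/
def TA16_stmt : Prop :=
  ∀ (x : V) (m n : ℕ) (d : ℝ), Pr (Ev fun c => reach c false x m n) ≤ d → d ≤ 1 / 2 →
    ∑ K ∈ (N3_A x m n).powerset, Pr (Ev fun c => WC c x m n K ∧ 4 ≤ nW c x m n) ≤
      2 * d * Pr (Ev fun c => 3 ≤ nW c x m n)

/-- TA17. Three clusters against thick pairs. With `N = nW c x m n`:
`3 Pr (N ≥ 3) ≤ E[N; N ≥ 3] = ∑ K, Pr (WC c K ∧ 3 ≤ nW (Th K c))` (`TA14`)
`≤ ∑ K, Pr (WC c K ∧ ∃ K', TC c K K')` (`TA3`, `TA15`) `≤ 3 Pr TE + E[N; N ≥ 4]`, and `TA16`. Conversely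
`∑ K, Pr (WC c K ∧ ∃ K', TC c K K') ≤ ∑ K, Pr (WC c K ∧ 3 ≤ N) ≤ 4 Pr (N ≥ 3)` (`TA14`, `TA4`). Third part,
`X` depends on the colours off the small annulus and its neighbours:
`Pr (∃ K K', TC c K K' ∧ X (Th K c)) ≤ ∑ K, Pr (WC c K ∧ (∃ K', TC c K K') ∧ X (Th K c))`
`≤ ∑ K, Pr (WC c K ∧ 3 ≤ N ∧ X c) = E[N; N ≥ 3, X] ≤ E[N₁; N₁ ≥ 3, X] = E[N₁; N₁ ≥ 3] Pr X`, where
`N₁ = nW c x m₁ n₁` (`TA15`, `Bindep`; events: `N3_indep`), `≤ 4 Pr (N₁ ≥ 3) Pr X`; for `X (Th K' c)` use the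
symmetry of `TC`; for `X c`: `TE` in the small annulus (`TA15`) and independence. Finally
`Pr (N ≥ 3) = Pr Three` by `TA15` and `Bflip_stmt`. -/
def TA17_stmt : Prop :=
  (∀ (x : V) (m n : ℕ), Even (x.1 + x.2) → 1 ≤ m → m < n →
    Pr (Ev fun c => reach c false x m n) ≤ 1 / 4 →
      Pr (Ev fun c => Three c x m n) ≤ 2 * Pr (Ev fun c => TE c x m n)) ∧
  ∀ (x : V) (m m₁ n₁ n : ℕ) (B : Set V) (X : (V → Bool) → Prop), Even (x.1 + x.2) → 1 ≤ m →
    m ≤ m₁ → m₁ < n₁ → n₁ ≤ n → Pr (Ev fun c => reach c false x m₁ n₁) ≤ 1 / 4 →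
    BDis (ann x m₁ n₁) B → Loc (Ev X) B →
      Pr (Ev fun c => ∃ K K' : Set V, TC c x m n K K' ∧
        (X c ∨ X (Th x m n K c) ∨ X (Th x m n K' c))) ≤
          12 * Pr (Ev X) * Pr (Ev fun c => Three c x m₁ n₁)

/-- TA18. Nets. Round the lifted positions down to multiples of `2 ^ (i - η)` (which divides
`8 * 2 ^ i`); `M = (2 ^ (η + 3)) ^ 6`; `sd u v ≤ |L - L'|` for lifted positions (`CG2_stmt`). -/
def TA18_stmt : Prop :=
  ∀ η : ℕ, ∃ M : ℕ, ∀ (x : V) (i e : ℕ), η ≤ i → ∃ F : ℕ → Sp6, ∀ y : ℕ → V,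
    (∀ l < 6, y l ∈ bd x (2 ^ i)) → Cyc6 x (2 ^ i) y →
    (∀ l < 6, ∀ l' < 6, l ≠ l' → 2 * 2 ^ (i - η) ≤ sd (y l) (y l')) →
      ∃ k < M, (F k).n = 2 ^ i ∧ (F k).a = 2 ^ (i - η) ∧ (F k).A = 2 ^ (i - e) ∧
        (∀ l < 6, (F k).y l ∈ bd x (2 ^ i)) ∧ Cyc6 x (2 ^ i) (F k).y ∧
        ∀ l < 6, sd ((F k).y l) (y l) ≤ 2 ^ (i - η)

/-- TA19. Conclusion. `x = 0`, `m = 2 ^ p`, `n = 2 ^ q`, `r₃ = 2 ^ (q - 2)`, `r₂ = 2 ^ (q - d')`,
`r₁ = 2 ^ (q - e')`, `d = d' + 1`, `e = e' + 1`; the same at `p`; `a = 2 ^ (i - η) ≤ r₁ / 8`, `A = r₁ / 2`. `DB_stmt`: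
choose first `d'`, then `e'` such that the bad events have probability at most `ε / 100`. `DL_stmt`: they
depend on `{v | n ≤ sd x v + R, sd x v ≤ n + R, v ∈ HS}`, `R = r₃` or `r₂`, away from
`ann 0 (2 ^ p) (2 ^ (q - 1))` resp. `ann 0 (2 ^ (p + 1)) (2 ^ q)`. `C2_stmt`: `reach` has probability at most
`1 / 4` for `i₁ ≤ q - p`. `a6 p q ≤ 2 Pr TE`; `TE` is contained in the union of the bad events of `TA17`
(outer ones with `m₁ = 2 ^ p`, `n₁ = 2 ^ (q - 1)`, inner ones with `m₁ = 2 ^ (p + 1)`, `n₁ = 2 ^ q`) and of the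
events `SixM c 0 (F k) (F' k')`, `k, k' < M`, with good ends (`TA13`, `TA18`). Take the good pair with
the largest probability (if there is none, any good pair, e.g. the standard spots). -/
def TA19_stmt : Prop := TA13_stmt → TA17_stmt → TA18_stmt → DB_stmt → DL_stmt → C2_stmt → CUT6_stmt

end TP.TA
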